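import Pool.Agent.H8.TD.Targets

set_option autoImplicit false

open MvPolynomial
open Pool.Agent.H12.ZD (pmap v O Res DenseOrbit NoInv)
open Pool.Agent.H18.HIT
open Pool.Agent.H8.ZA (HFam Const NA sz)
open Pool.Agent.H8.TD

namespace Pool.Agent.H60.TD

theorem pf_RFD : T_RFD := by
  intro κ C _ _ _ t p q D ht htop hD hpq hp hq hc hp0
  obtain ⟨e, he⟩ : ∃ e : RatFunc κ ≃ₐ[κ] C, ∀ g : Polynomial κ,
      e (algebraMap (Polynomial κ) (RatFunc κ) g) = Polynomial.aeval t g := by
    refine ⟨(RatFunc.algEquivOfTranscendental t ht).trans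
      ((IntermediateField.equivOfEq htop).trans IntermediateField.topEquiv), ?_⟩
    intro g
    rw [AlgEquiv.trans_apply, RatFunc.algEquivOfTranscendental_algebraMap, AlgEquiv.trans_apply]
    simp
  have hp1 : p ≠ 0 := by
    rintro rfl
    exact hp0 (map_zero _)
  have hpa : (algebraMap (Polynomial κ) (RatFunc κ) p) ≠ 0 := RatFunc.algebraMap_ne_zero hp1
  obtain ⟨f, hf⟩ : ∃ f : RatFunc κ, f = algebraMap (Polynomial κ) (RatFunc κ) q /
    algebraMap (Polynomial κ) (RatFunc κ) p := ⟨_, rfl⟩
  have hef : e f = Polynomial.aeval t q / Polynomial.aeval t p := by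
    rw [hf, map_div₀, he, he]
  have h1 : dg κ {Polynomial.aeval t q / Polynomial.aeval t p} =
      Module.finrank (IntermediateField.adjoin κ {f}) (RatFunc κ) := by
    unfold dg
    rw [← hef]
    have h2 : (IntermediateField.adjoin κ {f}).map e.toAlgHom =
        IntermediateField.adjoin κ {e f} := by
      rw [IntermediateField.adjoin_map]
      simp
    rw [← h2]
    symm
    exact Algebra.finrank_eq_of_equiv_equiv
      (IntermediateField.intermediateFieldMap e (IntermediateField.adjoin κ {f})).toRingEquiv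
      e.toRingEquiv (by ext; rfl)
  rw [h1, RatFunc.finrank_eq_max_natDegree]
  have h3 : f.num * p = q * f.denom := (RatFunc.num_mul_eq_mul_denom_iff hp1).2 hf
  have hq0 : q ≠ 0 := by
    rintro rfl
    have h4 : IsUnit p := isCoprime_zero_right.1 hpq
    have h5 : p.natDegree = 0 := Polynomial.natDegree_eq_zero_of_isUnit h4
    rcases hc with h | h
    · exact h (Polynomial.coeff_eq_zero_of_natDegree_lt (by omega))
    · exact h (by simp)
  have h4 : p ∣ f.denom := hpq.dvd_of_dvd_mul_left ⟨f.num, by rw [← h3]; ring⟩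
  have h5 : q ∣ f.num := hpq.symm.dvd_of_dvd_mul_right ⟨f.denom, h3⟩
  have h6 : f.num ≠ 0 := by
    intro h
    rw [h, zero_mul] at h3
    exact mul_ne_zero hq0 f.denom_ne_zero h3.symm
  rcases hc with h | h
  · exact le_trans (Polynomial.le_natDegree_of_ne_zero h) (le_trans
      (Polynomial.natDegree_le_of_dvd h4 f.denom_ne_zero) (le_max_right _ _))
  · exact le_trans (Polynomial.le_natDegree_of_ne_zero h) (le_trans
      (Polynomial.natDegree_le_of_dvd h5 h6) (le_max_left _ _))

end Pool.Agent.H60.TD
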