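import Pool.Agent.H8.TD.Targets

set_option autoImplicit false

open MvPolynomial
open Pool.Agent.H12.ZD (pmap v O Res DenseOrbit NoInv)
open Pool.Agent.H18.HIT
open Pool.Agent.H8.ZA (HFam Const NA sz)
open Pool.Agent.H8.TD

namespace Pool.Agent.H60.TD

section

variable {k K L : Type} [Field k] [Field K] [Field L] [Algebra k K] [Algebra k L]
  [Algebra K L] [IsScalarTower k K L] {τ₀ : K →ₐ[k] K} {τ : L →ₐ[k] L} {s : L} {w : K} {D : ℕ}

/-- the image of a polynomial in `s` -/
noncomputable def sl1p (τ₀ : K →ₐ[k] K) (w : K) (D : ℕ) (p : Polynomial K) : Polynomial K :=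
  Polynomial.expand K D ((p.map τ₀.toRingHom).comp (Polynomial.C w * Polynomial.X))

theorem sl1_eval (hτ : ∀ x, τ (algebraMap K L x) = algebraMap K L (τ₀ x))
    (hs : τ s = s ^ D * algebraMap K L w) (p : Polynomial K) :
    τ (Polynomial.aeval s p) = Polynomial.aeval s (sl1p τ₀ w D p) := by
  have h1 : τ (Polynomial.aeval s p) =
      Polynomial.eval₂ (τ.toRingHom.comp (algebraMap K L)) (τ s) p := by
    rw [Polynomial.aeval_def]
    exact Polynomial.hom_eval₂ p (algebraMap K L) τ.toRingHom s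
  have h2 : τ.toRingHom.comp (algebraMap K L) = (algebraMap K L).comp τ₀.toRingHom := by
    ext x
    exact hτ x
  have h3 : Polynomial.eval₂ (algebraMap K L) (s ^ D) (Polynomial.C w * Polynomial.X) =
      s ^ D * algebraMap K L w := by
    rw [Polynomial.eval₂_mul, Polynomial.eval₂_C, Polynomial.eval₂_X, mul_comm]
  rw [h1, h2, sl1p, Polynomial.expand_aeval, Polynomial.aeval_def, Polynomial.eval₂_comp,
    Polynomial.eval₂_map, hs, h3]

theorem sl1_coeff (hD : 1 ≤ D) (p : Polynomial K) (j c : ℕ) (hc : c < D) (c0 : ℕ) (hc0 : c0 < D) :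
    (sl1p τ₀ w D p * Polynomial.X ^ c).coeff (c0 + D * j) =
      if c = c0 then τ₀ (p.coeff j) * w ^ j else 0 := by
  rw [Polynomial.coeff_mul_X_pow', sl1p]
  split_ifs with h1 h2 h2
  · subst h2
    rw [Nat.add_sub_cancel_left, Polynomial.coeff_expand_mul' (by omega),
      Polynomial.comp_C_mul_X_coeff, Polynomial.coeff_map]
    rfl
  · rw [Polynomial.coeff_expand (by omega), if_neg]
    rintro ⟨t, ht⟩
    apply h2
    have h3 : c0 + D * j = c + D * t := by omega
    have h4 := congrArg (· % D) h3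
    simp only [Nat.add_mul_mod_self_left, Nat.mod_eq_of_lt hc, Nat.mod_eq_of_lt hc0] at h4
    exact h4.symm
  · omega
  · rfl

theorem sl1_indep (hD : 1 ≤ D) (ht : Transcendental K s)
    (htop : IntermediateField.adjoin K {s} = ⊤) (hw : w ≠ 0)
    (hτ : ∀ x, τ (algebraMap K L x) = algebraMap K L (τ₀ x))
    (hs : τ s = s ^ D * algebraMap K L w) {r : ℕ} (v : Fin r → K)
    (hv : LinearIndependent τ₀.fieldRange v) :
    LinearIndependent τ.fieldRange
      (fun i : Fin r × Fin D => algebraMap K L (v i.1) * s ^ (i.2 : ℕ)) := by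
  classical
  rw [Fintype.linearIndependent_iff]
  intro g hg
  have h1 : ∀ i, ∃ l : L, τ l = (g i : L) := fun i => by
    obtain ⟨l, hl⟩ := (g i).2
    exact ⟨l, hl⟩
  choose l hl using h1
  -- common denominator
  have h2 : ∀ i, ∃ p b : Polynomial K, b ≠ 0 ∧ l i * Polynomial.aeval s b =
      Polynomial.aeval s p := by
    intro i
    have h3 : l i ∈ IntermediateField.adjoin K {s} := by rw [htop]; trivial
    obtain ⟨p, b, hpb⟩ := (IntermediateField.mem_adjoin_simple_iff K _).1 h3
    by_cases hb : Polynomial.aeval s b = 0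
    · refine ⟨0, 1, one_ne_zero, ?_⟩
      rw [hpb, hb]; simp
    · refine ⟨p, b, ?_, ?_⟩
      · rintro rfl
        exact hb (map_zero _)
      · rw [hpb, div_mul_cancel₀ _ hb]
  choose p b hb0 hpb using h2
  obtain ⟨B, hB⟩ : ∃ B : Polynomial K, B = ∏ i, b i := ⟨_, rfl⟩
  have hB0 : B ≠ 0 := by rw [hB]; exact Finset.prod_ne_zero_iff.2 fun i _ => hb0 i
  obtain ⟨P, hP⟩ : ∃ P : Fin r × Fin D → Polynomial K, ∀ i, l i * Polynomial.aeval s B =
      Polynomial.aeval s (P i) := by
    refine ⟨fun i => p i * ∏ j ∈ Finset.univ.erase i, b j, fun i => ?_⟩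
    rw [map_mul, ← hpb, mul_assoc, ← map_mul, hB, Finset.mul_prod_erase _ _ (Finset.mem_univ i)]
  have hsB : Polynomial.aeval s B ≠ 0 := fun h => hB0 ((transcendental_iff.1 ht) B h)
  -- the relation
  have h3 : ∑ i : Fin r × Fin D, (Polynomial.C (v i.1) * (sl1p τ₀ w D (P i) *
      Polynomial.X ^ (i.2 : ℕ))) = 0 := by
    apply (transcendental_iff.1 ht)
    have h4 : τ (Polynomial.aeval s B) * ∑ i : Fin r × Fin D, g i •
        (algebraMap K L (v i.1) * s ^ (i.2 : ℕ)) = 0 := by rw [hg, mul_zero]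
    rw [Finset.mul_sum] at h4
    rw [map_sum, ← h4]
    refine Finset.sum_congr rfl fun i _ => ?_
    rw [map_mul, map_mul, ← sl1_eval hτ hs, ← hP, map_mul, hl, map_pow, Polynomial.aeval_X,
      Polynomial.aeval_C]
    have h5 : (g i) • (algebraMap K L (v i.1) * s ^ (i.2 : ℕ)) =
        (g i : L) * (algebraMap K L (v i.1) * s ^ (i.2 : ℕ)) := rfl
    rw [h5]
    ring
  -- coefficients
  have h6 : ∀ (c : Fin D) (j : ℕ), ∀ a, (P (a, c)).coeff j = 0 := by
    intro c j
    have h7 := congrArg (fun f => Polynomial.coeff f ((c : ℕ) + D * j)) h3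
    simp only [Polynomial.finsetSum_coeff, Polynomial.coeff_C_mul, Polynomial.coeff_zero] at h7
    simp only [fun i : Fin r × Fin D => sl1_coeff (τ₀ := τ₀) (w := w) hD (P i) j i.2 i.2.2 c c.2]
      at h7
    rw [Fintype.sum_prod_type] at h7
    have h8 : ∑ a : Fin r, (⟨τ₀ ((P (a, c)).coeff j), ⟨_, rfl⟩⟩ : τ₀.fieldRange) • v a = 0 := by
      have h9 : w ^ j * ∑ a : Fin r, (⟨τ₀ ((P (a, c)).coeff j), ⟨_, rfl⟩⟩ : τ₀.fieldRange) • v a =
          0 := by
        rw [← h7, Finset.mul_sum]
        refine Finset.sum_congr rfl fun a _ => ?_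
        rw [Finset.sum_eq_single c]
        · rw [if_pos rfl]
          have h10 : (⟨τ₀ ((P (a, c)).coeff j), ⟨_, rfl⟩⟩ : τ₀.fieldRange) • v a =
            τ₀ ((P (a, c)).coeff j) * v a := rfl
          rw [h10]
          ring
        · intro c' _ hcc
          rw [if_neg (fun h => hcc (Fin.ext h)), mul_zero]
        · intro h
          exact absurd (Finset.mem_univ c) h
      exact (mul_eq_zero.1 h9).resolve_left (pow_ne_zero _ hw)
    intro a
    have h9 := Fintype.linearIndependent_iff.1 hv _ h8 a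
    have h10 : τ₀ ((P (a, c)).coeff j) = 0 := congrArg Subtype.val h9
    exact (map_eq_zero τ₀).1 h10
  intro i
  have h7 : P i = 0 := by
    ext j
    rw [Polynomial.coeff_zero]
    exact h6 i.2 j i.1
  have h8 := hP i
  rw [h7, map_zero] at h8
  have h9 : l i = 0 := (mul_eq_zero.1 h8).resolve_right hsB
  apply Subtype.ext
  rw [← hl i, h9, map_zero]
  rfl

end

theorem pf_SL1 : T_SL1 := by
  intro k K L _ _ _ _ _ _ _ τ₀ τ s w D hD ht htop hw hτ hs hfin
  have h1 : ∀ (r : ℕ) (v : Fin r → K), LinearIndependent τ₀.fieldRange v →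
      D * r ≤ Module.finrank τ.fieldRange L := by
    intro r v hv
    have h2 := (sl1_indep hD ht htop hw hτ hs v hv).fintype_card_le_finrank
    rw [Fintype.card_prod, Fintype.card_fin, Fintype.card_fin, mul_comm] at h2
    exact h2
  have h3 : FiniteDimensional τ₀.fieldRange K := by
    by_contra hcon
    have h4 : ¬ Module.rank τ₀.fieldRange K < Cardinal.aleph0 := fun h =>
      hcon (Module.rank_lt_aleph0_iff.1 h)
    push Not at h4
    obtain ⟨v, hv⟩ := exists_linearIndependent_of_le_rank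
      (n := Module.finrank τ.fieldRange L + 1) ((Cardinal.natCast_lt_aleph0).le.trans h4)
    have h5 := h1 _ v hv
    have h6 : 1 * (Module.finrank τ.fieldRange L + 1) ≤ D * (Module.finrank τ.fieldRange L + 1) :=
      Nat.mul_le_mul_right _ hD
    omega
  refine ⟨h3, ?_⟩
  exact h1 _ _ (Module.finBasis τ₀.fieldRange K).linearIndependent

end Pool.Agent.H60.TD
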